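import Pool.Agent.Helper84.OPC.Stmts

set_option autoImplicit false

/-!
MP_ec87e6_co, module NOK: one-planar graphs do not contain K4 joined to three independent vertices.
-/

namespace OPC

set_option maxRecDepth 100000 in
theorem nok_chk : tchk E43 tree43 [] [] = true := by decide +kernel

set_option maxRecDepth 100000 in
theorem nok_wf : wfE 7 E43 = true := by decide +kernel

set_option maxRecDepth 100000 in
theorem nok_lst : ∀ x ∈ E43, x.1 < 4 ∧ x.1 < x.2 ∧ x.2 < 7 := by decide +kernel

/-- numbering of the seven vertices -/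
def nok_ps {V : Type} (κ : Fin 4 → V) (u : Fin 3 → V) (i : ℕ) : V :=
  if h : i < 4 then κ ⟨i, h⟩ else if h2 : i - 4 < 3 then u ⟨i - 4, h2⟩ else κ 0

theorem nok_lo {V : Type} (κ : Fin 4 → V) (u : Fin 3 → V) (i : ℕ) (h : i < 4) :
    nok_ps κ u i = κ ⟨i, h⟩ := by
  unfold nok_ps
  rw [dif_pos h]

theorem nok_hi {V : Type} (κ : Fin 4 → V) (u : Fin 3 → V) (i : ℕ) (h : ¬ i < 4) (h2 : i - 4 < 3) :
    nok_ps κ u i = u ⟨i - 4, h2⟩ := by
  unfold nok_ps
  rw [dif_neg h, dif_pos h2]

theorem st_NOK (hT : ST_TREE) (hP : ST_PICT) : ST_NOK := by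
  intro V _ _ G hG κ u hκ hu hk huk
  have hne : ∀ i j, u i ≠ κ j := fun i j => (huk i j).ne
  have h1 : ∀ i < 7, ∀ j < 7, nok_ps κ u i = nok_ps κ u j → i = j := by
    intro i hi j hj hij
    by_cases h : i < 4
    · rw [nok_lo κ u i h] at hij
      by_cases h' : j < 4
      · rw [nok_lo κ u j h'] at hij
        simpa using hκ hij
      · rw [nok_hi κ u j h' (by omega)] at hij
        exact absurd hij.symm (hne _ _)
    · rw [nok_hi κ u i h (by omega)] at hij
      by_cases h' : j < 4
      · rw [nok_lo κ u j h'] at hij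
        exact absurd hij (hne _ _)
      · rw [nok_hi κ u j h' (by omega)] at hij
        have := hu hij
        simp only [Fin.mk.injEq] at this
        omega
  have h2 : ∀ x ∈ E43, G.Adj (nok_ps κ u x.1) (nok_ps κ u x.2) := by
    intro x hx
    obtain ⟨h3, h4, h5⟩ := nok_lst x hx
    rw [nok_lo κ u x.1 h3]
    by_cases h : x.2 < 4
    · rw [nok_lo κ u x.2 h]
      refine hk _ _ ?_
      intro hh
      simp only [Fin.mk.injEq] at hh
      omega
    · rw [nok_hi κ u x.2 h (by omega)]
      exact (huk _ _).symm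
  obtain ⟨P⟩ := hP V G hG 7 E43 nok_wf (nok_ps κ u) h1 h2
  exact hT 7 E43 nok_wf tree43 nok_chk P

end OPC
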