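import Pool.Agent.Helper84.OPC.Stmts

set_option autoImplicit false

/-!
MP_ec87e6_co, module NOW: one-planar graphs do not contain K5 with three further vertices adjacent
to three different sets of four vertices.
-/

namespace OPC

set_option maxRecDepth 100000 in
theorem now_chk : tchk EW treeW [] [] = true := by decide +kernel

set_option maxRecDepth 100000 in
theorem now_wf : wfE 8 EW = true := by decide +kernel

set_option maxRecDepth 100000 in
theorem now_lst : ∀ x ∈ EW, x.1 < 5 ∧ x.1 < x.2 ∧ x.2 < 8 ∧ x.1 + 5 ≠ x.2 := by decide +kernel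

/-- numbering of the eight vertices -/
def now_ps {V : Type} (κ : Fin 5 → V) (u : Fin 3 → V) (i : ℕ) : V :=
  if h : i < 5 then κ ⟨i, h⟩ else if h2 : i - 5 < 3 then u ⟨i - 5, h2⟩ else κ 0

theorem now_lo {V : Type} (κ : Fin 5 → V) (u : Fin 3 → V) (i : ℕ) (h : i < 5) :
    now_ps κ u i = κ ⟨i, h⟩ := by
  unfold now_ps
  rw [dif_pos h]

theorem now_hi {V : Type} (κ : Fin 5 → V) (u : Fin 3 → V) (i : ℕ) (h : ¬ i < 5) (h2 : i - 5 < 3) :
    now_ps κ u i = u ⟨i - 5, h2⟩ := by
  unfold now_ps
  rw [dif_neg h, dif_pos h2]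

/-- the case of a normalised labelling -/
theorem now_main (hT : ST_TREE) (hP : ST_PICT) (V : Type) (G : SimpleGraph V) (hG : OnePlanar G)
    (κ : Fin 5 → V) (u : Fin 3 → V) (hκ : Function.Injective κ) (hu : Function.Injective u)
    (hk : ∀ i j, i ≠ j → G.Adj (κ i) (κ j)) (hne : ∀ i j, u i ≠ κ j)
    (huk : ∀ (i : Fin 3) (j : Fin 5), (j : ℕ) ≠ (i : ℕ) → G.Adj (u i) (κ j)) : False := by
  have h1 : ∀ i < 8, ∀ j < 8, now_ps κ u i = now_ps κ u j → i = j := by
    intro i hi j hj hij
    by_cases h : i < 5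
    · rw [now_lo κ u i h] at hij
      by_cases h' : j < 5
      · rw [now_lo κ u j h'] at hij
        simpa using hκ hij
      · rw [now_hi κ u j h' (by omega)] at hij
        exact absurd hij.symm (hne _ _)
    · rw [now_hi κ u i h (by omega)] at hij
      by_cases h' : j < 5
      · rw [now_lo κ u j h'] at hij
        exact absurd hij (hne _ _)
      · rw [now_hi κ u j h' (by omega)] at hij
        have := hu hij
        simp only [Fin.mk.injEq] at this
        omega
  have h2 : ∀ x ∈ EW, G.Adj (now_ps κ u x.1) (now_ps κ u x.2) := by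
    intro x hx
    obtain ⟨h3, h4, h5, h6⟩ := now_lst x hx
    rw [now_lo κ u x.1 h3]
    by_cases h : x.2 < 5
    · rw [now_lo κ u x.2 h]
      refine hk _ _ ?_
      intro hh
      simp only [Fin.mk.injEq] at hh
      omega
    · rw [now_hi κ u x.2 h (by omega)]
      refine (huk _ _ ?_).symm
      simp only
      omega
  obtain ⟨P⟩ := hP V G hG 8 EW now_wf (now_ps κ u) h1 h2
  exact hT 8 EW now_wf treeW now_chk P

theorem st_NOW (hT : ST_TREE) (hP : ST_PICT) : ST_NOW := by
  intro V _ _ G hG κ u x hκ hu hx hk hne huk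
  -- relabel
  let f : Fin 5 → Fin 5 := fun i => if h : (i : ℕ) < 3 then x ⟨i, h⟩ else 0
  obtain ⟨g, hg⟩ := Finset.exists_equiv_extend_of_card_eq (α := Fin 5) (β := Fin 5)
    (t := Finset.univ) (by simp) (s := Finset.univ.filter fun i : Fin 5 => (i : ℕ) < 3) (f := f)
    (Finset.subset_univ _) (by
      intro a ha b hb hab
      have ha' : (a : ℕ) < 3 := by simpa using ha
      have hb' : (b : ℕ) < 3 := by simpa using hb
      simp only [f, dif_pos ha', dif_pos hb'] at hab
      have := hx hab
      simp only [Fin.mk.injEq] at this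
      exact Fin.ext this)
  have hg' : ∀ i : Fin 3, ((g ⟨i, by omega⟩ : Finset.univ (α := Fin 5)) : Fin 5) = x i := by
    intro i
    have h3 := hg ⟨i, by omega⟩ (by simp)
    rw [h3]
    simp only [f, dif_pos i.2]
  have hinj : Function.Injective fun i : Fin 5 => ((g i : Finset.univ (α := Fin 5)) : Fin 5) :=
    Subtype.val_injective.comp g.injective
  refine now_main hT hP V G hG (fun i => κ (g i)) u (hκ.comp hinj) hu ?_ (fun i j => hne _ _) ?_
  · intro i j hij
    exact hk _ _ fun h => hij (hinj h)
  · intro i j hij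
    refine huk _ _ ?_
    intro h
    rw [← hg' i] at h
    have := hinj h
    rw [this] at hij
    exact hij rfl

end OPC
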