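import Pool.Agent.Helper84.OPC.Stmts

set_option autoImplicit false

/-!
MP_ec87e6_co, module TREE: decision trees are sound.
-/

namespace OPC

theorem tree_aux (h : ST_LEAF) (n : ℕ) (E : List (ℕ × ℕ)) (hE : wfE n E = true) (P : Pict n E) :
    ∀ (t : Tree) (X N : List (ℕ × ℕ)),
      (∀ x ∈ X, x.1 < E.length ∧ x.2 < E.length ∧ dsj E x.1 x.2 = true ∧
        (P.arc x.1 ∩ P.arc x.2).Nonempty) →
      (∀ x ∈ N, ¬ (P.arc x.1 ∩ P.arc x.2).Nonempty) → tchk E t X N = true → False := by
  intro t
  induction t with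
  | leaf k5 B R =>
    intro X N hX hN ht
    simp only [tchk] at ht
    exact h n E hE P X N k5 B R hX hN ht
  | case e f s t ihs iht =>
    intro X N hX hN ht
    simp only [tchk, Bool.and_eq_true, decide_eq_true_eq] at ht
    obtain ⟨⟨⟨⟨h1, h2⟩, h3⟩, h4⟩, h5⟩ := ht
    by_cases hc : (P.arc e ∩ P.arc f).Nonempty
    · refine ihs ((e, f) :: X) N ?_ hN h4
      intro x hx
      rcases List.mem_cons.1 hx with rfl | hx
      · exact ⟨lt_trans h1 h2, h2, h3, hc⟩
      · exact hX x hx
    · refine iht X ((e, f) :: N) hX ?_ h5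
      intro x hx
      rcases List.mem_cons.1 hx with rfl | hx
      · exact hc
      · exact hN x hx

theorem st_TREE (h : ST_LEAF) : ST_TREE := by
  intro n E hE t ht P
  exact tree_aux h n E hE P t [] [] (by simp) (by simp) ht

end OPC
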